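import Pool.Agent.Q206.EqDeg.Sem

/-!
The meaning of the predicates in the polynomial ring over an algebraically closed field.
-/

namespace Pool.Agent.Q206.EqDeg

open Polynomial

universe u

variable {K : Type u} [Field K]

theorem cst_iff (x : K[X]) : Cst K[X] x ↔ ∃ c : K, x = C c := by
  constructor
  · rintro (h | ⟨y, hy⟩)
    · exact ⟨0, by rw [h, C_0]⟩
    · obtain ⟨c, -, hc⟩ := Polynomial.isUnit_iff.1 (IsUnit.of_mul_eq_one y hy)
      exact ⟨c, hc.symm⟩
  · rintro ⟨c, rfl⟩
    by_cases hc : c = 0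
    · left; rw [hc, C_0]
    · right
      exact ⟨C c⁻¹, by rw [← C_mul, mul_inv_cancel₀ hc, C_1]⟩

theorem cst_iff_natDegree (x : K[X]) : Cst K[X] x ↔ x.natDegree = 0 := by
  rw [cst_iff]
  constructor
  · rintro ⟨c, rfl⟩
    exact natDegree_C c
  · intro h
    exact ⟨_, eq_C_of_natDegree_eq_zero h⟩

theorem irr_X : Irr K[X] X := by
  refine ⟨?_, fun a b hab => ?_⟩
  · rw [cst_iff_natDegree, natDegree_X]
    exact one_ne_zero
  · have h1 : IsUnit a ∨ IsUnit b := (irreducible_X (R := K)).isUnit_or_isUnit hab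
    rcases h1 with h | h
    · left
      rw [cst_iff_natDegree]
      exact natDegree_eq_zero_of_isUnit h
    · right
      rw [cst_iff_natDegree]
      exact natDegree_eq_zero_of_isUnit h

theorem irr_spec [IsAlgClosed K] {p : K[X]} (hp : Irr K[X] p) :
    ∃ α β : K, α ≠ 0 ∧ p = C α * X + C β := by
  have hp0 : p ≠ 0 := fun h => hp.1 (Or.inl h)
  have hirr : Irreducible p := by
    refine ⟨fun h => hp.1 ?_, fun a b hab => ?_⟩
    · rw [cst_iff_natDegree]
      exact natDegree_eq_zero_of_isUnit h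
    · have ha : a ≠ 0 := fun h => hp0 (by rw [hab, h, zero_mul])
      have hb : b ≠ 0 := fun h => hp0 (by rw [hab, h, mul_zero])
      rcases hp.2 a b hab with (h | ⟨y, hy⟩) | (h | ⟨y, hy⟩)
      · exact (ha h).elim
      · exact Or.inl (IsUnit.of_mul_eq_one y hy)
      · exact (hb h).elim
      · exact Or.inr (IsUnit.of_mul_eq_one y hy)
  have hd := IsAlgClosed.degree_eq_one_of_irreducible K hirr
  refine ⟨p.leadingCoeff, p.coeff 0, leadingCoeff_ne_zero.2 hp0, ?_⟩
  exact eq_X_add_C_of_degree_eq_one hd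

section

variable {α β : K} (hα : α ≠ 0)

include hα

theorem val_iff (h : K[X]) (r y : K) :
    Val K[X] (C α * X + C β) h (C (α * r + β)) (C y) ↔ h.eval r = y := by
  have h1 : C α * X + C β - C (α * r + β) = C α * (X - C r) := by
    rw [C_add, C_mul]; ring
  have h2 : Val K[X] (C α * X + C β) h (C (α * r + β)) (C y) ↔ (X - C r) ∣ h - C y := by
    unfold Val
    rw [h1]
    constructor
    · rintro ⟨q, hq⟩
      exact ⟨C α * q, by rw [hq]; ring⟩
    · rintro ⟨q, hq⟩
      refine ⟨C α⁻¹ * q, ?_⟩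
      have : C α * C α⁻¹ = (1 : K[X]) := by rw [← C_mul, mul_inv_cancel₀ hα, C_1]
      rw [hq]
      calc (X - C r) * q = (C α * C α⁻¹) * ((X - C r) * q) := by rw [this, one_mul]
        _ = C α * (X - C r) * (C α⁻¹ * q) := by ring
  rw [h2, dvd_iff_isRoot, IsRoot.def, eval_sub, eval_C, sub_eq_zero]

theorem exists_rep (x : K) : ∃ r, x = α * r + β := ⟨(x - β) / α, by field_simp; ring⟩

theorem root_iff (F : K[X]) (r : K) :
    Val K[X] (C α * X + C β) F (C (α * r + β)) 0 ↔ F.eval r = 0 := by
  rw [← C_0, val_iff hα]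

theorem inj_iff {F G : K[X]} (hF : F ≠ 0) (hG : G ≠ 0) [DecidableEq K] :
    (∃ h, Inj K[X] (C α * X + C β) F G h) ↔ F.roots.toFinset.card ≤ G.roots.toFinset.card := by
  constructor
  · rintro ⟨h, h1, h2⟩
    have key : ∀ r ∈ F.roots.toFinset, (h.eval r - β) / α ∈ G.roots.toFinset := by
      intro r hr
      rw [Multiset.mem_toFinset, mem_roots hF, IsRoot.def] at hr
      obtain ⟨y, ⟨hy, hv⟩, hG'⟩ := h1 (C (α * r + β)) ((cst_iff _).2 ⟨_, rfl⟩)
        ((root_iff hα F r).2 hr)
      obtain ⟨y, rfl⟩ := (cst_iff _).1 hy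
      rw [val_iff hα] at hv
      obtain ⟨s, hs⟩ := exists_rep hα (β := β) y
      rw [hs, root_iff hα] at hG'
      rw [Multiset.mem_toFinset, mem_roots hG, IsRoot.def, hv, hs, add_sub_cancel_right,
        mul_div_cancel_left₀ _ hα]
      exact hG'
    refine Finset.card_le_card_of_injOn (fun r => (h.eval r - β) / α) key ?_
    intro r hr r' hr' he
    rw [Finset.mem_coe, Multiset.mem_toFinset, mem_roots hF, IsRoot.def] at hr hr'
    have he' : h.eval r = h.eval r' := by
      have h3 : (h.eval r - β) / α = (h.eval r' - β) / α := he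
      field_simp at h3
      exact sub_left_injective h3
    have h4 := h2 (C (α * r + β)) (C (α * r' + β)) (C (h.eval r)) ((cst_iff _).2 ⟨_, rfl⟩)
      ((cst_iff _).2 ⟨_, rfl⟩) ((cst_iff _).2 ⟨_, rfl⟩) ((root_iff hα F r).2 hr)
      ((root_iff hα F r').2 hr') ((val_iff hα h r _).2 rfl) ((val_iff hα h r' _).2 he'.symm)
    have h5 : α * r + β = α * r' + β := C_injective h4
    exact mul_left_cancel₀ hα (add_right_cancel h5)
  · intro hle
    have hle' : Fintype.card F.roots.toFinset ≤ Fintype.card G.roots.toFinset := by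
      rw [Fintype.card_coe, Fintype.card_coe]; exact hle
    obtain ⟨e⟩ := Function.Embedding.nonempty_of_card_le hle'
    let v : K → K := fun r => if hr : r ∈ F.roots.toFinset then α * (e ⟨r, hr⟩ : K) + β else 0
    let h : K[X] := Lagrange.interpolate F.roots.toFinset id v
    have hv : ∀ r (hr : r ∈ F.roots.toFinset), h.eval r = α * (e ⟨r, hr⟩ : K) + β := by
      intro r hr
      have h1 := Lagrange.eval_interpolate_at_node (s := F.roots.toFinset) (v := id) v
        (Set.injOn_id _) hr
      have h2 : h.eval r = v r := h1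
      rw [h2]
      simp only [v, dif_pos hr]
    refine ⟨h, ?_, ?_⟩
    · intro x hx hroot
      obtain ⟨x, rfl⟩ := (cst_iff _).1 hx
      obtain ⟨r, rfl⟩ := exists_rep hα (β := β) x
      rw [root_iff hα] at hroot
      have hr : r ∈ F.roots.toFinset := by
        rw [Multiset.mem_toFinset, mem_roots hF]; exact hroot
      refine ⟨C (α * (e ⟨r, hr⟩ : K) + β), ⟨(cst_iff _).2 ⟨_, rfl⟩, ?_⟩, ?_⟩
      · rw [val_iff hα]; exact hv r hr
      · rw [root_iff hα]
        have := (e ⟨r, hr⟩).2
        rw [Multiset.mem_toFinset, mem_roots hG] at this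
        exact this
    · intro x x' y hx hx' hy h1 h2 h3 h4
      obtain ⟨x, rfl⟩ := (cst_iff _).1 hx
      obtain ⟨x', rfl⟩ := (cst_iff _).1 hx'
      obtain ⟨y, rfl⟩ := (cst_iff _).1 hy
      obtain ⟨r, rfl⟩ := exists_rep hα (β := β) x
      obtain ⟨r', rfl⟩ := exists_rep hα (β := β) x'
      rw [root_iff hα] at h1 h2
      rw [val_iff hα] at h3 h4
      have hr : r ∈ F.roots.toFinset := by
        rw [Multiset.mem_toFinset, mem_roots hF]; exact h1
      have hr' : r' ∈ F.roots.toFinset := by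
        rw [Multiset.mem_toFinset, mem_roots hF]; exact h2
      rw [hv r hr] at h3
      rw [hv r' hr', ← h3] at h4
      have h5 : (e ⟨r', hr'⟩ : K) = e ⟨r, hr⟩ := mul_left_cancel₀ hα (add_right_cancel h4)
      have h6 := e.injective (Subtype.ext h5)
      have h7 : r' = r := congrArg Subtype.val h6
      rw [h7]

theorem natDegree_le_of {f : K[X]} (hf : 1 ≤ f.natDegree) (a b : K) :
    (f + C a * (C α * X + C β) + C b).natDegree ≤ f.natDegree := by
  refine natDegree_add_le_of_degree_le (natDegree_add_le_of_degree_le le_rfl ?_) ?_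
  · refine (natDegree_C_mul_le _ _).trans ?_
    exact natDegree_linear_le.trans hf
  · rw [natDegree_C]; exact Nat.zero_le _

end

/-- Over an algebraically closed field a suitable `f + a p + b` has `deg f` distinct roots. -/
theorem exists_max [IsAlgClosed K] [DecidableEq K] {α β : K} (hα : α ≠ 0) {f : K[X]}
    (hf : 1 ≤ f.natDegree) :
    ∃ a b : K, f + C a * (C α * X + C β) + C b ≠ 0 ∧
      (f + C a * (C α * X + C β) + C b).roots.toFinset.card = f.natDegree := by
  have hf0 : f ≠ 0 := by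
    rintro rfl
    rw [natDegree_zero] at hf
    omega
  -- choose `a`
  obtain ⟨a, ha⟩ : ∃ a : K, a ∉ ({-(f.coeff 1) / α, -(derivative f).coeff 0 / α} : Finset K) :=
    Infinite.exists_notMem_finset _
  rw [Finset.mem_insert, Finset.mem_singleton, not_or] at ha
  set F₀ := f + C a * (C α * X + C β) with hF₀
  have hder : derivative F₀ ≠ 0 := by
    intro h
    apply ha.2
    have h1 : (derivative F₀).coeff 0 = 0 := by rw [h, coeff_zero]
    rw [hF₀, derivative_add, derivative_C_mul, derivative_add, derivative_C_mul, derivative_X,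
      derivative_C, coeff_add, add_zero, mul_one, ← C_mul, coeff_C_zero] at h1
    rw [eq_div_iff hα]
    linear_combination h1
  have hdeg : F₀.natDegree = f.natDegree := by
    rcases Nat.lt_or_ge 1 f.natDegree with h | h
    · rw [hF₀]
      refine natDegree_add_eq_left_of_natDegree_lt ?_
      refine lt_of_le_of_lt ?_ h
      exact (natDegree_C_mul_le _ _).trans natDegree_linear_le
    · have h1 : f.natDegree = 1 := le_antisymm h hf
      rw [h1]
      refine natDegree_eq_of_le_of_coeff_ne_zero ?_ ?_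
      · rw [← h1]
        have := natDegree_le_of (α := α) (β := β) hα hf a 0
        rwa [C_0, add_zero] at this
      · rw [hF₀, coeff_add, coeff_C_mul, coeff_add, coeff_C_mul, coeff_X_one, coeff_C_succ]
        intro h2
        apply ha.1
        rw [eq_div_iff hα]
        linear_combination h2
  -- choose `b`
  obtain ⟨b, hb⟩ : ∃ b : K, b ∉ ((derivative F₀).roots.toFinset.image fun r => - F₀.eval r) :=
    Infinite.exists_notMem_finset _
  have hdegb : (F₀ + C b).natDegree = f.natDegree := by rw [natDegree_add_C, hdeg]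
  have hne : F₀ + C b ≠ 0 := by
    intro h
    rw [h, natDegree_zero] at hdegb
    omega
  refine ⟨a, b, hne, ?_⟩
  have hsep : (F₀ + C b).Separable := by
    rw [separable_def, derivative_add, derivative_C, add_zero]
    rw [isCoprime_iff_aeval_ne_zero_of_isAlgClosed (k := K) K]
    intro r
    by_contra hcon
    push Not at hcon
    obtain ⟨h1, h2⟩ := hcon
    rw [coe_aeval_eq_eval] at h1 h2
    apply hb
    rw [Finset.mem_image]
    refine ⟨r, ?_, ?_⟩
    · rw [Multiset.mem_toFinset, mem_roots hder]; exact h2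
    · rw [eval_add, eval_C] at h1
      exact neg_eq_of_add_eq_zero_right h1
  rw [Multiset.toFinset_card_of_nodup (nodup_roots hsep), IsAlgClosed.card_roots_eq_natDegree,
    hdegb]

theorem le_iff [IsAlgClosed K] {α β : K} (hα : α ≠ 0) {f g : K[X]}
    (hf : 1 ≤ f.natDegree) (hg : 1 ≤ g.natDegree) :
    LE K[X] (C α * X + C β) f g ↔ f.natDegree ≤ g.natDegree := by
  classical
  constructor
  · intro h
    obtain ⟨a, b, hne, hcard⟩ := exists_max (β := β) hα hf
    obtain ⟨c, d, e, ⟨hc, hd⟩, hne', hinj⟩ := h (C a) (C b) ((cst_iff _).2 ⟨_, rfl⟩)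
      ((cst_iff _).2 ⟨_, rfl⟩) hne
    obtain ⟨c, rfl⟩ := (cst_iff _).1 hc
    obtain ⟨d, rfl⟩ := (cst_iff _).1 hd
    have h1 := (inj_iff hα hne hne').1 ⟨e, hinj⟩
    rw [hcard] at h1
    refine h1.trans (le_trans ?_ (natDegree_le_of (α := α) (β := β) hα hg c d))
    exact (Multiset.toFinset_card_le _).trans (card_roots' _)
  · intro hle a b ha hb hne
    obtain ⟨a, rfl⟩ := (cst_iff _).1 ha
    obtain ⟨b, rfl⟩ := (cst_iff _).1 hb
    obtain ⟨c, d, hne', hcard⟩ := exists_max (β := β) hα hg
    have h1 := (inj_iff (β := β) hα hne hne').2 (by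
      rw [hcard]
      refine le_trans ?_ hle
      refine le_trans ?_ (natDegree_le_of (α := α) (β := β) hα hf a b)
      exact (Multiset.toFinset_card_le _).trans (card_roots' _))
    obtain ⟨e, he⟩ := h1
    exact ⟨C c, C d, e, ⟨(cst_iff _).2 ⟨_, rfl⟩, (cst_iff _).2 ⟨_, rfl⟩⟩, hne', he⟩

/-- The predicate `ED` is equality of degrees. -/
theorem ed_iff [IsAlgClosed K] (f g : K[X]) : ED K[X] f g ↔ f.degree = g.degree := by
  unfold ED
  constructor
  · rintro (⟨rfl, rfl⟩ | ⟨⟨hf, hf0⟩, hg, hg0⟩ | ⟨⟨hf, hg⟩, p, hp, h1, h2⟩)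
    · rfl
    · rw [cst_iff_natDegree] at hf hg
      rw [degree_eq_natDegree hf0, degree_eq_natDegree hg0, hf, hg]
    · obtain ⟨α, β, hα, rfl⟩ := irr_spec hp
      rw [cst_iff_natDegree] at hf hg
      rw [le_iff hα (Nat.one_le_iff_ne_zero.2 hf) (Nat.one_le_iff_ne_zero.2 hg)] at h1
      rw [le_iff hα (Nat.one_le_iff_ne_zero.2 hg) (Nat.one_le_iff_ne_zero.2 hf)] at h2
      have hf0 : f ≠ 0 := fun h => hf (by rw [h, natDegree_zero])
      have hg0 : g ≠ 0 := fun h => hg (by rw [h, natDegree_zero])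
      rw [degree_eq_natDegree hf0, degree_eq_natDegree hg0, le_antisymm h1 h2]
  · intro h
    by_cases hf0 : f = 0
    · left
      refine ⟨hf0, ?_⟩
      rw [hf0, degree_zero] at h
      exact degree_eq_bot.1 h.symm
    · have hg0 : g ≠ 0 := by
        intro hg
        rw [hg, degree_zero] at h
        exact hf0 (degree_eq_bot.1 h)
      right
      have hnat : f.natDegree = g.natDegree := natDegree_eq_natDegree h
      by_cases hf : f.natDegree = 0
      · left
        exact ⟨⟨(cst_iff_natDegree f).2 hf, hf0⟩, (cst_iff_natDegree g).2 (hnat ▸ hf), hg0⟩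
      · right
        have hg : g.natDegree ≠ 0 := hnat ▸ hf
        refine ⟨⟨fun h => hf ((cst_iff_natDegree f).1 h),
          fun h => hg ((cst_iff_natDegree g).1 h)⟩, X, irr_X, ?_⟩
        have hX : (X : K[X]) = C 1 * X + C 0 := by rw [C_1, C_0, one_mul, add_zero]
        rw [hX, le_iff one_ne_zero (Nat.one_le_iff_ne_zero.2 hf) (Nat.one_le_iff_ne_zero.2 hg),
          le_iff one_ne_zero (Nat.one_le_iff_ne_zero.2 hg) (Nat.one_le_iff_ne_zero.2 hf)]
        exact ⟨hnat.le, hnat.ge⟩

end Pool.Agent.Q206.EqDeg
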