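import Mathlib

/-!
First-order formulas in the language of rings, with a uniform meaning in all commutative rings.
-/

namespace Pool.Agent.Q206.EqDeg

open FirstOrder FirstOrder.Language

universe u

/-- The ring `A` as a structure for the language of rings. -/
abbrev str (A : Type u) [CommRing A] : Language.ring.Structure A :=
  (FirstOrder.Ring.compatibleRingOfRing A).toStructure

/-- A predicate on tuples in commutative rings given by one first-order formula. -/
def DefU {Γ : Type} (P : ∀ (A : Type u) [CommRing A], (Γ → A) → Prop) : Prop :=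
  ∃ φ : Language.ring.Formula Γ, ∀ (A : Type u) [CommRing A] (v : Γ → A),
    (@Formula.Realize Language.ring A (str A) Γ φ v) ↔ P A v

/-- A function of tuples in commutative rings given by one term. -/
def TermU {Γ : Type} (f : ∀ (A : Type u) [CommRing A], (Γ → A) → A) : Prop :=
  ∃ t : Language.ring.Term Γ, ∀ (A : Type u) [CommRing A] (v : Γ → A),
    (@Term.realize Language.ring A (str A) Γ v t) = f A v

variable {Γ Δ : Type}

theorem TermU.var (i : Γ) : TermU.{u} fun _ _ v => v i :=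
  ⟨Term.var i, fun _ _ _ => rfl⟩

theorem TermU.zero : TermU.{u} fun (A : Type u) [CommRing A] (_ : Γ → A) => (0 : A) := by
  refine ⟨0, fun A _ v => ?_⟩
  let _ := FirstOrder.Ring.compatibleRingOfRing A
  exact FirstOrder.Ring.realize_zero v

theorem TermU.one : TermU.{u} fun (A : Type u) [CommRing A] (_ : Γ → A) => (1 : A) := by
  refine ⟨1, fun A _ v => ?_⟩
  let _ := FirstOrder.Ring.compatibleRingOfRing A
  exact FirstOrder.Ring.realize_one v

theorem TermU.add {f g : ∀ (A : Type u) [CommRing A], (Γ → A) → A} (hf : TermU f)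
    (hg : TermU g) : TermU.{u} fun A _ v => f A v + g A v := by
  obtain ⟨t, ht⟩ := hf
  obtain ⟨s, hs⟩ := hg
  refine ⟨t + s, fun A _ v => ?_⟩
  let _ := FirstOrder.Ring.compatibleRingOfRing A
  beta_reduce
  rw [← ht, ← hs]
  exact FirstOrder.Ring.realize_add t s v

theorem TermU.mul {f g : ∀ (A : Type u) [CommRing A], (Γ → A) → A} (hf : TermU f)
    (hg : TermU g) : TermU.{u} fun A _ v => f A v * g A v := by
  obtain ⟨t, ht⟩ := hf
  obtain ⟨s, hs⟩ := hg
  refine ⟨t * s, fun A _ v => ?_⟩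
  let _ := FirstOrder.Ring.compatibleRingOfRing A
  beta_reduce
  rw [← ht, ← hs]
  exact FirstOrder.Ring.realize_mul t s v

theorem TermU.neg {f : ∀ (A : Type u) [CommRing A], (Γ → A) → A} (hf : TermU f) :
    TermU.{u} fun A _ v => - f A v := by
  obtain ⟨t, ht⟩ := hf
  refine ⟨-t, fun A _ v => ?_⟩
  let _ := FirstOrder.Ring.compatibleRingOfRing A
  beta_reduce
  rw [← ht]
  exact FirstOrder.Ring.realize_neg t v

theorem TermU.sub {f g : ∀ (A : Type u) [CommRing A], (Γ → A) → A} (hf : TermU f)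
    (hg : TermU g) : TermU.{u} fun A _ v => f A v - g A v := by
  obtain ⟨t, ht⟩ := hf.add hg.neg
  exact ⟨t, fun A _ v => (ht A v).trans (sub_eq_add_neg _ _).symm⟩

theorem DefU.eq {f g : ∀ (A : Type u) [CommRing A], (Γ → A) → A} (hf : TermU f)
    (hg : TermU g) : DefU.{u} fun A _ v => f A v = g A v := by
  obtain ⟨t, ht⟩ := hf
  obtain ⟨s, hs⟩ := hg
  refine ⟨t.equal s, fun A _ v => ?_⟩
  let _ := FirstOrder.Ring.compatibleRingOfRing A
  beta_reduce
  rw [← ht, ← hs]
  exact Formula.realize_equal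

theorem DefU.of_iff {P Q : ∀ (A : Type u) [CommRing A], (Γ → A) → Prop} (h : DefU P)
    (hPQ : ∀ (A : Type u) [CommRing A] (v : Γ → A), P A v ↔ Q A v) : DefU Q := by
  obtain ⟨φ, h⟩ := h
  exact ⟨φ, fun A _ v => (h A v).trans (hPQ A v)⟩

theorem DefU.not {P : ∀ (A : Type u) [CommRing A], (Γ → A) → Prop} (h : DefU P) :
    DefU.{u} fun A _ v => ¬ P A v := by
  obtain ⟨φ, h⟩ := h
  refine ⟨φ.not, fun A _ v => ?_⟩
  let _ := FirstOrder.Ring.compatibleRingOfRing A
  beta_reduce
  rw [← h]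
  exact Formula.realize_not

theorem DefU.and {P Q : ∀ (A : Type u) [CommRing A], (Γ → A) → Prop} (h : DefU P)
    (h' : DefU Q) : DefU.{u} fun A _ v => P A v ∧ Q A v := by
  obtain ⟨φ, h⟩ := h
  obtain ⟨ψ, h'⟩ := h'
  refine ⟨φ ⊓ ψ, fun A _ v => ?_⟩
  let _ := FirstOrder.Ring.compatibleRingOfRing A
  beta_reduce
  rw [← h, ← h']
  exact Formula.realize_inf

theorem DefU.or {P Q : ∀ (A : Type u) [CommRing A], (Γ → A) → Prop} (h : DefU P)
    (h' : DefU Q) : DefU.{u} fun A _ v => P A v ∨ Q A v := by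
  obtain ⟨φ, h⟩ := h
  obtain ⟨ψ, h'⟩ := h'
  refine ⟨φ ⊔ ψ, fun A _ v => ?_⟩
  let _ := FirstOrder.Ring.compatibleRingOfRing A
  beta_reduce
  rw [← h, ← h']
  exact Formula.realize_sup

theorem DefU.imp {P Q : ∀ (A : Type u) [CommRing A], (Γ → A) → Prop} (h : DefU P)
    (h' : DefU Q) : DefU.{u} fun A _ v => (P A v → Q A v) := by
  obtain ⟨φ, h⟩ := h
  obtain ⟨ψ, h'⟩ := h'
  refine ⟨φ.imp ψ, fun A _ v => ?_⟩
  let _ := FirstOrder.Ring.compatibleRingOfRing A
  beta_reduce
  rw [← h, ← h']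
  exact Formula.realize_imp

theorem DefU.ex {P : ∀ (A : Type u) [CommRing A], (Γ → A) → A → Prop}
    (h : DefU.{u} fun A _ (v : Γ ⊕ Unit → A) =>
      P A (fun i => v (Sum.inl i)) (v (Sum.inr ()))) :
    DefU.{u} fun A _ v => ∃ x, P A v x := by
  obtain ⟨φ, h⟩ := h
  refine ⟨φ.iExs Unit, fun A _ v => ?_⟩
  let _ := FirstOrder.Ring.compatibleRingOfRing A
  refine Formula.realize_iExs.trans ?_
  constructor
  · rintro ⟨x, hx⟩
    exact ⟨x (), (h A _).1 hx⟩
  · rintro ⟨x, hx⟩
    exact ⟨fun _ => x, (h A _).2 hx⟩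

theorem DefU.all {P : ∀ (A : Type u) [CommRing A], (Γ → A) → A → Prop}
    (h : DefU.{u} fun A _ (v : Γ ⊕ Unit → A) =>
      P A (fun i => v (Sum.inl i)) (v (Sum.inr ()))) :
    DefU.{u} fun A _ v => ∀ x, P A v x := by
  refine (DefU.ex (P := fun A _ v x => ¬ P A v x) h.not).not.of_iff fun A _ v => ?_
  push Not
  rfl

end Pool.Agent.Q206.EqDeg
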