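import Pool.Agent.Q206.EqDeg.Form

/-!
The predicates used in the definition of equality of degrees, and their definability.
-/

namespace Pool.Agent.Q206.EqDeg

universe u

/-- `x` is zero or a unit. -/
def Cst (A : Type u) [CommRing A] (x : A) : Prop := x = 0 ∨ ∃ y, x * y = 1

/-- `p - x` divides `h - y`. -/
def Val (A : Type u) [CommRing A] (p h x y : A) : Prop := ∃ q, h - y = (p - x) * q

/-- `p` is irreducible. -/
def Irr (A : Type u) [CommRing A] (p : A) : Prop :=
  ¬ Cst A p ∧ ∀ a b, p = a * b → Cst A a ∨ Cst A b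

/-- There are at most as many constants `x` with `p - x ∣ F` as constants `y` with `p - y ∣ G`,
as witnessed by an element `h` interpolating an injection. -/
def Inj (A : Type u) [CommRing A] (p F G h : A) : Prop :=
  (∀ x, Cst A x → Val A p F x 0 → ∃ y, (Cst A y ∧ Val A p h x y) ∧ Val A p G y 0) ∧
  ∀ x x' y, Cst A x → Cst A x' → Cst A y → Val A p F x 0 → Val A p F x' 0 → Val A p h x y →
    Val A p h x' y → x = x'

/-- The comparison of degrees. -/
def LE (A : Type u) [CommRing A] (p f g : A) : Prop :=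
  ∀ a b, Cst A a → Cst A b → ¬ f + a * p + b = 0 →
    ∃ c d h, (Cst A c ∧ Cst A d) ∧ (¬ g + c * p + d = 0) ∧
      Inj A p (f + a * p + b) (g + c * p + d) h

/-- The final predicate. -/
def ED (A : Type u) [CommRing A] (f g : A) : Prop :=
  (f = 0 ∧ g = 0) ∨ (((Cst A f ∧ ¬ f = 0) ∧ (Cst A g ∧ ¬ g = 0)) ∨
    ((¬ Cst A f ∧ ¬ Cst A g) ∧ ∃ p, Irr A p ∧ (LE A p f g ∧ LE A p g f)))

variable {Γ : Type}

/-- Weakening of terms. -/
theorem TermU.wk {x : ∀ (A : Type u) [CommRing A], (Γ → A) → A} (hx : TermU x) :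
    TermU.{u} fun A _ (v : Γ ⊕ Unit → A) => x A fun i => v (Sum.inl i) := by
  obtain ⟨t, ht⟩ := hx
  refine ⟨t.relabel Sum.inl, fun A _ v => ?_⟩
  let _ := FirstOrder.Ring.compatibleRingOfRing A
  beta_reduce
  rw [← ht]
  exact FirstOrder.Language.Term.realize_relabel

theorem defCst {x : ∀ (A : Type u) [CommRing A], (Γ → A) → A} (hx : TermU x) :
    DefU.{u} fun A _ v => Cst A (x A v) := by
  refine (DefU.eq hx TermU.zero).or (DefU.ex (P := fun A _ v y => x A v * y = 1) ?_)
  exact DefU.eq (TermU.mul hx.wk (TermU.var _)) TermU.one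

theorem defVal {p h x y : ∀ (A : Type u) [CommRing A], (Γ → A) → A} (hp : TermU p)
    (hh : TermU h) (hx : TermU x) (hy : TermU y) :
    DefU.{u} fun A _ v => Val A (p A v) (h A v) (x A v) (y A v) := by
  refine DefU.ex (P := fun A _ v q => h A v - y A v = (p A v - x A v) * q) ?_
  exact DefU.eq (hh.wk.sub hy.wk) ((hp.wk.sub hx.wk).mul (TermU.var _))

theorem defIrr {p : ∀ (A : Type u) [CommRing A], (Γ → A) → A} (hp : TermU p) :
    DefU.{u} fun A _ v => Irr A (p A v) := by
  refine (defCst hp).not.and (DefU.all (P := fun A _ v a => ∀ b, p A v = a * b →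
    Cst A a ∨ Cst A b) ?_)
  refine DefU.all (P := fun A _ v b => p A (fun i => v (Sum.inl i)) = v (Sum.inr ()) * b →
    Cst A (v (Sum.inr ())) ∨ Cst A b) ?_
  exact (DefU.eq hp.wk.wk ((TermU.var _).mul (TermU.var _))).imp
    ((defCst (TermU.var _)).or (defCst (TermU.var _)))

theorem defInj {p F G h : ∀ (A : Type u) [CommRing A], (Γ → A) → A} (hp : TermU p)
    (hF : TermU F) (hG : TermU G) (hh : TermU h) :
    DefU.{u} fun A _ v => Inj A (p A v) (F A v) (G A v) (h A v) := by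
  refine DefU.and ?_ ?_
  · refine DefU.all (P := fun A _ v x => Cst A x → Val A (p A v) (F A v) x 0 →
      ∃ y, (Cst A y ∧ Val A (p A v) (h A v) x y) ∧ Val A (p A v) (G A v) y 0) ?_
    refine (defCst (TermU.var _)).imp ((defVal hp.wk hF.wk (TermU.var _) TermU.zero).imp ?_)
    refine DefU.ex (P := fun A _ (v : Γ ⊕ Unit → A) y => (Cst A y ∧
      Val A (p A fun i => v (Sum.inl i)) (h A fun i => v (Sum.inl i)) (v (Sum.inr ())) y) ∧
      Val A (p A fun i => v (Sum.inl i)) (G A fun i => v (Sum.inl i)) y 0) ?_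
    exact ((defCst (TermU.var _)).and (defVal hp.wk.wk hh.wk.wk (TermU.var _) (TermU.var _))).and
      (defVal hp.wk.wk hG.wk.wk (TermU.var _) TermU.zero)
  · refine DefU.all (P := fun A _ v x => ∀ x' y, Cst A x → Cst A x' → Cst A y →
      Val A (p A v) (F A v) x 0 → Val A (p A v) (F A v) x' 0 → Val A (p A v) (h A v) x y →
      Val A (p A v) (h A v) x' y → x = x') ?_
    refine DefU.all (P := fun A _ (v : Γ ⊕ Unit → A) x' => ∀ y, Cst A (v (Sum.inr ())) →
      Cst A x' → Cst A y →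
      Val A (p A fun i => v (Sum.inl i)) (F A fun i => v (Sum.inl i)) (v (Sum.inr ())) 0 →
      Val A (p A fun i => v (Sum.inl i)) (F A fun i => v (Sum.inl i)) x' 0 →
      Val A (p A fun i => v (Sum.inl i)) (h A fun i => v (Sum.inl i)) (v (Sum.inr ())) y →
      Val A (p A fun i => v (Sum.inl i)) (h A fun i => v (Sum.inl i)) x' y →
      v (Sum.inr ()) = x') ?_
    refine DefU.all (P := fun A _ (v : (Γ ⊕ Unit) ⊕ Unit → A) y =>
      Cst A (v (Sum.inl (Sum.inr ()))) → Cst A (v (Sum.inr ())) → Cst A y →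
      Val A (p A fun i => v (Sum.inl (Sum.inl i))) (F A fun i => v (Sum.inl (Sum.inl i)))
        (v (Sum.inl (Sum.inr ()))) 0 →
      Val A (p A fun i => v (Sum.inl (Sum.inl i))) (F A fun i => v (Sum.inl (Sum.inl i)))
        (v (Sum.inr ())) 0 →
      Val A (p A fun i => v (Sum.inl (Sum.inl i))) (h A fun i => v (Sum.inl (Sum.inl i)))
        (v (Sum.inl (Sum.inr ()))) y →
      Val A (p A fun i => v (Sum.inl (Sum.inl i))) (h A fun i => v (Sum.inl (Sum.inl i)))
        (v (Sum.inr ())) y →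
      v (Sum.inl (Sum.inr ())) = v (Sum.inr ())) ?_
    refine (defCst (TermU.var _)).imp ((defCst (TermU.var _)).imp ((defCst (TermU.var _)).imp
      ?_))
    refine (defVal hp.wk.wk.wk hF.wk.wk.wk (TermU.var _) TermU.zero).imp
      ((defVal hp.wk.wk.wk hF.wk.wk.wk (TermU.var _) TermU.zero).imp ?_)
    refine (defVal hp.wk.wk.wk hh.wk.wk.wk (TermU.var _) (TermU.var _)).imp
      ((defVal hp.wk.wk.wk hh.wk.wk.wk (TermU.var _) (TermU.var _)).imp ?_)
    exact DefU.eq (TermU.var _) (TermU.var _)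

theorem defLE {p f g : ∀ (A : Type u) [CommRing A], (Γ → A) → A} (hp : TermU p)
    (hf : TermU f) (hg : TermU g) : DefU.{u} fun A _ v => LE A (p A v) (f A v) (g A v) := by
  refine DefU.all (P := fun A _ v a => ∀ b, Cst A a → Cst A b → ¬ f A v + a * p A v + b = 0 →
    ∃ c d h, (Cst A c ∧ Cst A d) ∧ (¬ g A v + c * p A v + d = 0) ∧
      Inj A (p A v) (f A v + a * p A v + b) (g A v + c * p A v + d) h) ?_
  refine DefU.all (P := fun A _ (v : Γ ⊕ Unit → A) b => Cst A (v (Sum.inr ())) → Cst A b →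
    ¬ f A (fun i => v (Sum.inl i)) + v (Sum.inr ()) * p A (fun i => v (Sum.inl i)) + b = 0 →
    ∃ c d h, (Cst A c ∧ Cst A d) ∧
      (¬ g A (fun i => v (Sum.inl i)) + c * p A (fun i => v (Sum.inl i)) + d = 0) ∧
      Inj A (p A fun i => v (Sum.inl i))
        (f A (fun i => v (Sum.inl i)) + v (Sum.inr ()) * p A (fun i => v (Sum.inl i)) + b)
        (g A (fun i => v (Sum.inl i)) + c * p A (fun i => v (Sum.inl i)) + d) h) ?_
  refine (defCst (TermU.var _)).imp ((defCst (TermU.var _)).imp (DefU.imp ?_ ?_))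
  · exact (DefU.eq ((hf.wk.wk.add ((TermU.var _).mul hp.wk.wk)).add (TermU.var _))
      TermU.zero).not
  · refine DefU.ex (P := fun A _ (v : (Γ ⊕ Unit) ⊕ Unit → A) c =>
      ∃ d h, (Cst A c ∧ Cst A d) ∧
      (¬ g A (fun i => v (Sum.inl (Sum.inl i))) + c * p A (fun i => v (Sum.inl (Sum.inl i))) + d
        = 0) ∧
      Inj A (p A fun i => v (Sum.inl (Sum.inl i)))
        (f A (fun i => v (Sum.inl (Sum.inl i))) +
          v (Sum.inl (Sum.inr ())) * p A (fun i => v (Sum.inl (Sum.inl i))) + v (Sum.inr ()))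
        (g A (fun i => v (Sum.inl (Sum.inl i))) +
          c * p A (fun i => v (Sum.inl (Sum.inl i))) + d) h) ?_
    refine DefU.ex (P := fun A _ (v : ((Γ ⊕ Unit) ⊕ Unit) ⊕ Unit → A) d =>
      ∃ h, (Cst A (v (Sum.inr ())) ∧ Cst A d) ∧
      (¬ g A (fun i => v (Sum.inl (Sum.inl (Sum.inl i)))) +
        v (Sum.inr ()) * p A (fun i => v (Sum.inl (Sum.inl (Sum.inl i)))) + d = 0) ∧
      Inj A (p A fun i => v (Sum.inl (Sum.inl (Sum.inl i))))
        (f A (fun i => v (Sum.inl (Sum.inl (Sum.inl i)))) +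
          v (Sum.inl (Sum.inl (Sum.inr ()))) *
            p A (fun i => v (Sum.inl (Sum.inl (Sum.inl i)))) + v (Sum.inl (Sum.inr ())))
        (g A (fun i => v (Sum.inl (Sum.inl (Sum.inl i)))) +
          v (Sum.inr ()) * p A (fun i => v (Sum.inl (Sum.inl (Sum.inl i)))) + d) h) ?_
    refine DefU.ex (P := fun A _ (v : (((Γ ⊕ Unit) ⊕ Unit) ⊕ Unit) ⊕ Unit → A) h =>
      (Cst A (v (Sum.inl (Sum.inr ()))) ∧ Cst A (v (Sum.inr ()))) ∧
      (¬ g A (fun i => v (Sum.inl (Sum.inl (Sum.inl (Sum.inl i))))) +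
        v (Sum.inl (Sum.inr ())) *
          p A (fun i => v (Sum.inl (Sum.inl (Sum.inl (Sum.inl i))))) + v (Sum.inr ()) = 0) ∧
      Inj A (p A fun i => v (Sum.inl (Sum.inl (Sum.inl (Sum.inl i)))))
        (f A (fun i => v (Sum.inl (Sum.inl (Sum.inl (Sum.inl i))))) +
          v (Sum.inl (Sum.inl (Sum.inl (Sum.inr ())))) *
            p A (fun i => v (Sum.inl (Sum.inl (Sum.inl (Sum.inl i))))) +
              v (Sum.inl (Sum.inl (Sum.inr ()))))
        (g A (fun i => v (Sum.inl (Sum.inl (Sum.inl (Sum.inl i))))) +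
          v (Sum.inl (Sum.inr ())) *
            p A (fun i => v (Sum.inl (Sum.inl (Sum.inl (Sum.inl i))))) + v (Sum.inr ())) h) ?_
    have hp' := hp.wk.wk.wk.wk.wk
    have hf' := hf.wk.wk.wk.wk.wk
    have hg' := hg.wk.wk.wk.wk.wk
    refine ((defCst (TermU.var _)).and (defCst (TermU.var _))).and (DefU.and ?_ ?_)
    · exact (DefU.eq ((hg'.add ((TermU.var _).mul hp')).add (TermU.var _)) TermU.zero).not
    · exact defInj hp' ((hf'.add ((TermU.var _).mul hp')).add (TermU.var _))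
        ((hg'.add ((TermU.var _).mul hp')).add (TermU.var _)) (TermU.var _)

/-- `ED` is given by one first-order formula without parameters. -/
theorem defED {f g : ∀ (A : Type u) [CommRing A], (Γ → A) → A} (hf : TermU f)
    (hg : TermU g) : DefU.{u} fun A _ v => ED A (f A v) (g A v) := by
  refine ((DefU.eq hf TermU.zero).and (DefU.eq hg TermU.zero)).or (DefU.or ?_ (DefU.and ?_ ?_))
  · exact ((defCst hf).and (DefU.eq hf TermU.zero).not).and
      ((defCst hg).and (DefU.eq hg TermU.zero).not)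
  · exact (defCst hf).not.and (defCst hg).not
  · refine DefU.ex (P := fun A _ v p => Irr A p ∧ (LE A p (f A v) (g A v) ∧
      LE A p (g A v) (f A v))) ?_
    exact (defIrr (TermU.var _)).and ((defLE (TermU.var _) hf.wk hg.wk).and
      (defLE (TermU.var _) hg.wk hf.wk))

end Pool.Agent.Q206.EqDeg
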